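import Mathlib
import Pool.Agent.H933.LL.Stm8
import Pool.Agent.H591.LL.Harn

/-!
# The average of `log⁺ (1 / |f|)` over a measure of bounded logarithmic potential (P_negmu)

The zeros of `f` in the disc of radius `3 r / 2` are split off one after the other (`dslope`); the
maximum principle on the disc of radius `7 r / 2` bounds their number.
-/

set_option autoImplicit false

open MeasureTheory Metric Topology
open scoped Real ENNReal

namespace Pool.Agent.H788.LL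

open Pool.Agent.H933.LL

/-- `m` zeros are split off -/
def Fac (f : ℂ → ℂ) (U : Set ℂ) (ρ : ℝ) (m : ℕ) : Prop :=
  ∃ (Z : Fin m → ℂ) (g : ℂ → ℂ), (∀ i, ‖Z i‖ < ρ) ∧ DifferentiableOn ℂ g U ∧
    ∀ z, f z = (∏ i, (z - Z i)) * g z

theorem fac_zero {f : ℂ → ℂ} {U : Set ℂ} (hf : DifferentiableOn ℂ f U) (ρ : ℝ) : Fac f U ρ 0 :=
  ⟨fun i => i.elim0, f, fun i => i.elim0, hf, fun z => by simp⟩

theorem fac_succ {f : ℂ → ℂ} {U : Set ℂ} {ρ : ℝ} {m : ℕ} (hU : IsOpen U)
    (hρ : ball (0 : ℂ) ρ ⊆ U) (Z : Fin m → ℂ) (g : ℂ → ℂ) (hZ : ∀ i, ‖Z i‖ < ρ)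
    (hg : DifferentiableOn ℂ g U) (hfg : ∀ z, f z = (∏ i, (z - Z i)) * g z) (u : ℂ)
    (hu : ‖u‖ < ρ) (h0 : g u = 0) : Fac f U ρ (m + 1) := by
  have huU : U ∈ 𝓝 u := hU.mem_nhds (hρ (by rwa [mem_ball_zero_iff]))
  refine ⟨Fin.cons u Z, dslope g u, ?_, (Complex.differentiableOn_dslope huU).2 hg, fun z => ?_⟩
  · intro i
    refine Fin.cases ?_ (fun j => ?_) i
    · exact hu
    · exact hZ j
  · rw [Fin.prod_univ_succ]
    simp only [Fin.cons_zero, Fin.cons_succ]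
    have h1 := sub_smul_dslope g u z
    rw [h0, sub_zero, smul_eq_mul] at h1
    rw [hfg z, ← h1]
    ring

theorem fac_bound {f g : ℂ → ℂ} {U : Set ℂ} {r M : ℝ} {m : ℕ} (hr : 0 < r)
    (hcU : closedBall (0 : ℂ) (4 * r) ⊆ U) (Z : Fin m → ℂ) (hZ : ∀ i, ‖Z i‖ < 3 * r / 2)
    (hg : DifferentiableOn ℂ g U) (hfg : ∀ z, f z = (∏ i, (z - Z i)) * g z) (h1 : f 0 = 1)
    (hfM : ∀ z ∈ ball (0 : ℂ) (4 * r), ‖f z‖ ≤ M) :
    (∀ z ∈ ball (0 : ℂ) (7 * r / 2), ‖g z‖ * (2 * r) ^ m ≤ M) ∧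
      (4 / 3 : ℝ) ^ m ≤ ‖g 0‖ * (2 * r) ^ m := by
  have h2r : 0 < (2 * r) ^ m := by positivity
  have h7 : (7 * r / 2 : ℝ) ≠ 0 := by positivity
  have hd : DiffContOnCl ℂ g (ball 0 (7 * r / 2)) := by
    refine DifferentiableOn.diffContOnCl (hg.mono ?_)
    rw [closure_ball _ h7]
    exact (closedBall_subset_closedBall (by linarith)).trans hcU
  have hC : ∀ z ∈ frontier (ball (0 : ℂ) (7 * r / 2)), ‖g z‖ ≤ M / (2 * r) ^ m := by
    intro z hz
    rw [frontier_ball _ h7, mem_sphere_zero_iff_norm] at hz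
    rw [le_div_iff₀ h2r]
    have h3 := hfM z (by rw [mem_ball_zero_iff, hz]; linarith)
    rw [hfg z, norm_mul, norm_prod] at h3
    have h4 : (2 * r) ^ m ≤ ∏ i, ‖z - Z i‖ := by
      have h5 : ∏ _i : Fin m, (2 * r) = (2 * r) ^ m := by simp
      rw [← h5]
      refine Finset.prod_le_prod (fun i _ => by positivity) (fun i _ => ?_)
      have h6 := norm_sub_norm_le z (Z i)
      have h7 := hZ i
      rw [hz] at h6
      linarith
    calc ‖g z‖ * (2 * r) ^ m ≤ ‖g z‖ * ∏ i, ‖z - Z i‖ :=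
          mul_le_mul_of_nonneg_left h4 (norm_nonneg _)
      _ ≤ M := by rw [mul_comm]; exact h3
  constructor
  · intro z hz
    have h3 := Complex.norm_le_of_forall_mem_frontier_norm_le isBounded_ball hd hC
      (subset_closure hz)
    rwa [le_div_iff₀ h2r] at h3
  · have h3 : (∏ i, ‖Z i‖) * ‖g 0‖ = 1 := by
      have h4 := congrArg norm (hfg 0)
      rw [h1, norm_one, norm_mul, norm_prod] at h4
      simp only [zero_sub, norm_neg] at h4
      exact h4.symm
    have h4 : ∏ i, ‖Z i‖ ≤ (3 * r / 2) ^ m := by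
      have h5 : ∏ _i : Fin m, (3 * r / 2) = (3 * r / 2) ^ m := by
        rw [Finset.prod_const, Finset.card_univ, Fintype.card_fin]
      rw [← h5]
      exact Finset.prod_le_prod (fun i _ => norm_nonneg _) (fun i _ => (hZ i).le)
    calc (4 / 3 : ℝ) ^ m = (4 / 3) ^ m * ((∏ i, ‖Z i‖) * ‖g 0‖) := by rw [h3, mul_one]
      _ ≤ (4 / 3) ^ m * ((3 * r / 2) ^ m * ‖g 0‖) := by
          refine mul_le_mul_of_nonneg_left ?_ (by positivity)
          exact mul_le_mul_of_nonneg_right h4 (norm_nonneg _)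
      _ = ‖g 0‖ * (2 * r) ^ m := by
          rw [← mul_assoc, ← mul_pow, show (4 / 3 : ℝ) * (3 * r / 2) = 2 * r by ring, mul_comm]

/-- all zeros in the disc of radius `3 r / 2` -/
theorem exists_fac {f : ℂ → ℂ} {U : Set ℂ} {r M : ℝ} (hr : 0 < r) (hU : IsOpen U)
    (hcU : closedBall (0 : ℂ) (4 * r) ⊆ U) (hf : DifferentiableOn ℂ f U) (h1 : f 0 = 1)
    (hfM : ∀ z ∈ ball (0 : ℂ) (4 * r), ‖f z‖ ≤ M) :
    ∃ (m : ℕ) (Z : Fin m → ℂ) (g : ℂ → ℂ), (∀ i, ‖Z i‖ < 3 * r / 2) ∧ DifferentiableOn ℂ g U ∧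
      (∀ z, f z = (∏ i, (z - Z i)) * g z) ∧ ∀ u, ‖u‖ < 3 * r / 2 → g u ≠ 0 := by
  by_contra hcon
  push Not at hcon
  have hall : ∀ m, Fac f U (3 * r / 2) m := by
    intro m
    induction m with
    | zero => exact fac_zero hf _
    | succ m ih =>
      obtain ⟨Z, g, hZ, hg, hfg⟩ := ih
      obtain ⟨u, hu, hgu⟩ := hcon m Z g hZ hg hfg
      refine fac_succ hU ?_ Z g hZ hg hfg u hu hgu
      exact (ball_subset_closedBall.trans (closedBall_subset_closedBall (by linarith))).trans hcU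
  obtain ⟨n, hn⟩ := pow_unbounded_of_one_lt M (show (1 : ℝ) < 4 / 3 by norm_num)
  obtain ⟨Z, g, hZ, hg, hfg⟩ := hall n
  obtain ⟨h2, h3⟩ := fac_bound hr hcU Z hZ hg hfg h1 hfM
  have h4 := h2 0 (mem_ball_self (by positivity))
  linarith

/-- the lower bound for the factor without zeros -/
theorem lower {G : ℂ → ℂ} {r M : ℝ} (hr : 0 < r) (hM : 1 ≤ M)
    (hG : DifferentiableOn ℂ G (ball 0 (3 * r / 2))) (h0 : ∀ z ∈ ball (0 : ℂ) (3 * r / 2), G z ≠ 0)
    (hGM : ∀ z ∈ ball (0 : ℂ) (3 * r / 2), ‖G z‖ ≤ M) (h1 : 1 ≤ ‖G 0‖) (w : ℂ) (hw : ‖w‖ < r) :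
    1 / M ^ 8 ≤ ‖G w‖ := by
  have hM0 : 0 < M := by linarith
  have hharn := Pool.Agent.H591.LL.p_harn
  have hc : ‖(3 / 4 : ℂ) * w‖ = 3 / 4 * ‖w‖ := by
    rw [norm_mul]
    norm_num
  have h2 := hharn G 0 ((3 / 4 : ℂ) * w) (3 * r / 2) M (by positivity) hG h0 hGM (by
    rw [sub_zero, hc]
    linarith)
  have h3 : 1 / M ^ 2 ≤ ‖G ((3 / 4 : ℂ) * w)‖ := by
    refine le_trans ?_ h2
    refine div_le_div_of_nonneg_right ?_ (by positivity)
    exact one_le_pow₀ h1
  have hsub : ball ((3 / 4 : ℂ) * w) (3 * r / 4) ⊆ ball (0 : ℂ) (3 * r / 2) := by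
    refine ball_subset_ball' ?_
    rw [dist_zero_right, hc]
    linarith
  have h4 := hharn G ((3 / 4 : ℂ) * w) w (3 * r / 4) M (by positivity) (hG.mono hsub)
    (fun z hz => h0 z (hsub hz)) (fun z hz => hGM z (hsub hz)) (by
      have h5 : w - (3 / 4 : ℂ) * w = (1 / 4 : ℂ) * w := by ring
      rw [h5, norm_mul]
      norm_num
      linarith)
  refine le_trans ?_ h4
  have h5 : (1 / M ^ 2) ^ 3 ≤ ‖G ((3 / 4 : ℂ) * w)‖ ^ 3 :=
    pow_le_pow_left₀ (by positivity) h3 3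
  calc 1 / M ^ 8 = (1 / M ^ 2) ^ 3 / M ^ 2 := by
        field_simp
    _ ≤ _ := div_le_div_of_nonneg_right h5 (by positivity)

/-- **P_negmu** -/
theorem p_negmu : P_negmu := by
  intro r A hr hA
  have hl43 : 0 < Real.log (4 / 3) := Real.log_pos (by norm_num)
  have hpl : 0 ≤ Real.posLog (2 * r) := Real.posLog_nonneg
  refine ⟨A * (8 + (Real.posLog (2 * r) + 1) / Real.log (4 / 3)) + 1, by positivity, ?_⟩
  intro μ hμ f U M hU hcU hf h1 hM hfM
  have hM0 : 0 < M := by linarith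
  have hlM : 0 ≤ Real.log M := Real.log_nonneg hM
  obtain ⟨m, Z, g, hZ, hg, hfg, hg0⟩ := exists_fac hr hU hcU hf h1 hfM
  obtain ⟨hb1, hb2⟩ := fac_bound hr hcU Z hZ hg hfg h1 hfM
  have h2r : (0 : ℝ) < (2 * r) ^ m := by positivity
  have hm : (m : ℝ) ≤ Real.log M / Real.log (4 / 3) := by
    rw [le_div_iff₀ hl43, ← Real.log_pow]
    refine Real.log_le_log (by positivity) (hb2.trans ?_)
    exact hb1 0 (mem_ball_self (by positivity))
  -- the factor without zeros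
  obtain ⟨G, hG⟩ : ∃ G : ℂ → ℂ, ∀ z, G z = g z * (((2 * r) ^ m : ℝ) : ℂ) := ⟨_, fun _ => rfl⟩
  have hGn : ∀ z, ‖G z‖ = ‖g z‖ * (2 * r) ^ m := by
    intro z
    rw [hG, norm_mul, Complex.norm_real, Real.norm_of_nonneg h2r.le]
  have hlow : ∀ w : ℂ, ‖w‖ < r → 1 / M ^ 8 ≤ ‖G w‖ := by
    refine lower hr hM ?_ ?_ ?_ ?_
    · have h3 : DifferentiableOn ℂ (fun z => g z * (((2 * r) ^ m : ℝ) : ℂ)) (ball 0 (3 * r / 2)) := by
        refine DifferentiableOn.mul_const (hg.mono ?_) _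
        exact (ball_subset_closedBall.trans (closedBall_subset_closedBall (by linarith))).trans hcU
      have h4 : G = fun z => g z * (((2 * r) ^ m : ℝ) : ℂ) := funext hG
      rw [h4]
      exact h3
    · intro z hz
      rw [hG]
      refine mul_ne_zero (hg0 z (by rwa [mem_ball_zero_iff] at hz)) ?_
      exact_mod_cast h2r.ne'
    · intro z hz
      rw [hGn]
      exact hb1 z (ball_subset_ball (by linarith) hz)
    · rw [hGn]
      exact (one_le_pow₀ (by norm_num)).trans hb2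
  have hpos8 : Real.posLog (M ^ 8) = 8 * Real.log M := by
    rw [Real.posLog_pow, Real.posLog_eq_log (by rw [abs_of_pos hM0]; exact hM)]
    norm_num
  -- the pointwise bound
  have hpt : ∀ w : ℂ, ‖w‖ < r → Real.posLog ‖f w‖⁻¹ ≤
      (8 * Real.log M + m * Real.posLog (2 * r)) + ∑ i, Real.posLog ‖w - Z i‖⁻¹ := by
    intro w hw
    have h3 : ‖f w‖⁻¹ = (∏ i, ((2 * r) * ‖w - Z i‖⁻¹)) * ‖G w‖⁻¹ := by
      rw [hfg w, norm_mul, norm_prod, mul_inv, hGn, mul_inv, Finset.prod_mul_distrib,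
        Finset.prod_inv_distrib, Finset.prod_const, Finset.card_univ, Fintype.card_fin]
      have h4 : (2 * r) ^ m * ((2 * r) ^ m)⁻¹ = 1 := mul_inv_cancel₀ h2r.ne'
      calc (∏ i, ‖w - Z i‖)⁻¹ * ‖g w‖⁻¹ =
            ((2 * r) ^ m * ((2 * r) ^ m)⁻¹) * ((∏ i, ‖w - Z i‖)⁻¹ * ‖g w‖⁻¹) := by
              rw [h4, one_mul]
        _ = _ := by ring
    have h4 : Real.posLog ‖G w‖⁻¹ ≤ 8 * Real.log M := by
      rw [← hpos8]
      refine Real.posLog_le_posLog (by positivity) ?_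
      have h5 := hlow w hw
      have h6 : 0 < 1 / M ^ 8 := by positivity
      rw [← one_div]
      calc 1 / ‖G w‖ ≤ 1 / (1 / M ^ 8) := one_div_le_one_div_of_le h6 h5
        _ = M ^ 8 := one_div_one_div _
    have h5 : Real.posLog (∏ i, ((2 * r) * ‖w - Z i‖⁻¹)) ≤
        m * Real.posLog (2 * r) + ∑ i, Real.posLog ‖w - Z i‖⁻¹ := by
      refine (Real.posLog_prod _ _).trans ?_
      calc ∑ i, Real.posLog ((2 * r) * ‖w - Z i‖⁻¹) ≤
            ∑ i, (Real.posLog (2 * r) + Real.posLog ‖w - Z i‖⁻¹) :=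
              Finset.sum_le_sum fun i _ => Real.posLog_mul
        _ = _ := by
              rw [Finset.sum_add_distrib, Finset.sum_const, Finset.card_univ, Fintype.card_fin,
                nsmul_eq_mul]
    rw [h3]
    refine Real.posLog_mul.trans ?_
    linarith
  constructor
  · -- the zeros
    refine measure_mono_null (t := ⋃ i, {Z i}) ?_ (measure_iUnion_null fun i => hμ.atom (Z i))
    rintro z ⟨hz, hfz⟩
    rw [mem_ball_zero_iff] at hz
    rw [hfg z] at hfz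
    have h3 := (mul_eq_zero.1 hfz).resolve_right (hg0 z (by linarith))
    obtain ⟨i, -, hi⟩ := Finset.prod_eq_zero_iff.1 h3
    exact Set.mem_iUnion.2 ⟨i, sub_eq_zero.1 hi⟩
  · have hae : ∀ᵐ z ∂μ, ENNReal.ofReal (Real.posLog ‖f z‖⁻¹) ≤
        ENNReal.ofReal (8 * Real.log M + m * Real.posLog (2 * r)) +
          ∑ i, ENNReal.ofReal (Real.posLog ‖z - Z i‖⁻¹) := by
      have h3 : ∀ᵐ z ∂μ, z ∈ ball (0 : ℂ) r := by
        rw [ae_iff]
        exact hμ.car
      filter_upwards [h3] with z hz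
      rw [mem_ball_zero_iff] at hz
      refine (ENNReal.ofReal_le_ofReal (hpt z hz)).trans ?_
      refine ENNReal.ofReal_add_le.trans ?_
      rw [ENNReal.ofReal_sum_of_nonneg fun i _ => Real.posLog_nonneg]
    have hmeas : ∀ i, Measurable fun z : ℂ => ENNReal.ofReal (Real.posLog ‖z - Z i‖⁻¹) := by
      intro i
      have h3 : Measurable fun z : ℂ => ‖z - Z i‖⁻¹ := by fun_prop
      exact (Real.continuous_posLog.measurable.comp h3).ennreal_ofReal
    refine (lintegral_mono_ae hae).trans ?_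
    rw [lintegral_add_left measurable_const, lintegral_const,
      lintegral_finsetSum _ fun i _ => hmeas i]
    have h4 : ∑ i : Fin m, ∫⁻ z, ENNReal.ofReal (Real.posLog ‖z - Z i‖⁻¹) ∂μ ≤
        ENNReal.ofReal (m * A) := by
      calc ∑ i : Fin m, ∫⁻ z, ENNReal.ofReal (Real.posLog ‖z - Z i‖⁻¹) ∂μ ≤
            ∑ _i : Fin m, ENNReal.ofReal A := Finset.sum_le_sum fun i _ => hμ.pot (Z i)
        _ = ENNReal.ofReal (m * A) := by
            rw [Finset.sum_const, Finset.card_univ, Fintype.card_fin, nsmul_eq_mul,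
              ENNReal.ofReal_mul (by positivity), ENNReal.ofReal_natCast]
    have h5 : ENNReal.ofReal (8 * Real.log M + m * Real.posLog (2 * r)) * μ Set.univ ≤
        ENNReal.ofReal ((8 * Real.log M + m * Real.posLog (2 * r)) * A) := by
      rw [ENNReal.ofReal_mul (by positivity)]
      gcongr
      exact hμ.mass
    refine (add_le_add h5 h4).trans ?_
    rw [← ENNReal.ofReal_add (by positivity) (by positivity)]
    refine ENNReal.ofReal_le_ofReal ?_
    have h6 : (m : ℝ) * (Real.posLog (2 * r) + 1) ≤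
        Real.log M / Real.log (4 / 3) * (Real.posLog (2 * r) + 1) :=
      mul_le_mul_of_nonneg_right hm (by positivity)
    have h7 : A * ((m : ℝ) * (Real.posLog (2 * r) + 1)) ≤
        A * (Real.log M / Real.log (4 / 3) * (Real.posLog (2 * r) + 1)) :=
      mul_le_mul_of_nonneg_left h6 hA
    calc (8 * Real.log M + m * Real.posLog (2 * r)) * A + m * A =
          A * 8 * Real.log M + A * ((m : ℝ) * (Real.posLog (2 * r) + 1)) := by ring
      _ ≤ A * 8 * Real.log M +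
          A * (Real.log M / Real.log (4 / 3) * (Real.posLog (2 * r) + 1)) := by linarith
      _ = (A * (8 + (Real.posLog (2 * r) + 1) / Real.log (4 / 3))) * Real.log M := by ring
      _ ≤ _ := by
          refine mul_le_mul_of_nonneg_right ?_ hlM
          linarith

end Pool.Agent.H788.LL
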